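import Mathlib

namespace Pool.Agent.Results.MP_a6d20f_an.No

open Set Filter Topology Real

/-- the scalar class: differentiable, difference quotients of the derivative in [μ, L] -/
def F1 (μ L : ℝ) (f : ℝ → ℝ) : Prop :=
  Differentiable ℝ f ∧ ∀ x y, x ≠ y →
    μ ≤ (deriv f x - deriv f y) / (x - y) ∧ (deriv f x - deriv f y) / (x - y) ≤ L

/-- limsup of |x t - a| ^ (1 / t) in the extended reals -/
noncomputable def rate (x : ℕ → ℝ) (a : ℝ) : EReal :=
  limsup (fun t : ℕ => ((|x t - a| ^ (1 / (t : ℝ)) : ℝ) : EReal)) atTop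

theorem lim {x : ℕ → ℝ} {a ρ r : ℝ} (h : rate x a ≤ ρ) (hr : ρ < r) :
    ∀ᶠ t in atTop, |x t - a| ≤ r ^ t := by
  have h1 : rate x a < r := h.trans_lt (by exact_mod_cast hr)
  filter_upwards [eventually_lt_of_limsup_lt h1, eventually_gt_atTop 0] with t ht h0
  have h2 : |x t - a| ^ (1 / (t : ℝ)) < r := by exact_mod_cast ht
  have h3 := pow_le_pow_left₀ (by positivity) h2.le t
  rwa [one_div, Real.rpow_inv_natCast_pow (abs_nonneg _) h0.ne'] at h3

theorem mk {μ L : ℝ} (hμ : 0 < μ) {φ : ℝ → ℝ} (hc : Continuous φ)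
    (h : ∀ x y, x ≤ y → μ * (y - x) ≤ φ y - φ x ∧ φ y - φ x ≤ L * (y - x)) :
    ∃ f a, F1 μ L f ∧ (∀ y, f a ≤ f y) ∧ deriv f = φ ∧ φ a = 0 := by
  have d : ∀ x, HasDerivAt (fun x => ∫ t in (0 : ℝ)..x, φ t) (φ x) x := fun x =>
    (hc.integral_hasStrictDerivAt 0 x).hasDerivAt
  have e : deriv (fun x => ∫ t in (0 : ℝ)..x, φ t) = φ := funext fun x => (d x).deriv
  obtain ⟨a, ha⟩ : ∃ a, φ a = 0 := by
    have p : 0 ≤ |φ 0| / μ := by positivity
    have q : μ * (|φ 0| / μ) = |φ 0| := by field_simp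
    have h1 := (h (-(|φ 0| / μ)) 0 (by linarith)).1
    have h2 := (h 0 (|φ 0| / μ) p).1
    rw [zero_sub, neg_neg, q] at h1
    rw [sub_zero, q] at h2
    exact intermediate_value_univ (-(|φ 0| / μ)) (|φ 0| / μ) hc
      ⟨by linarith [le_abs_self (φ 0)], by linarith [neg_abs_le (φ 0)]⟩
  refine ⟨_, a, ⟨fun x => (d x).differentiableAt, fun x y hxy => ?_⟩, fun y => ?_, e, ha⟩
  · rw [e]
    rcases lt_or_gt_of_ne hxy with hxy | hxy
    · have := h x y hxy.le
      rw [← neg_div_neg_eq, neg_sub, neg_sub, le_div_iff₀ (by linarith), div_le_iff₀ (by linarith)]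
      exact this
    · have := h y x hxy.le
      rw [le_div_iff₀ (by linarith), div_le_iff₀ (by linarith)]
      exact this
  · have hcont : Continuous fun x => ∫ t in (0 : ℝ)..x, φ t :=
      continuous_iff_continuousAt.2 fun x => (d x).continuousAt
    rcases lt_trichotomy a y with hy | rfl | hy
    · obtain ⟨ξ, hξ, h1⟩ := exists_hasDerivAt_eq_slope _ φ hy hcont.continuousOn fun x _ => d x
      have := (h a ξ hξ.1.le).1
      have h2 : 0 ≤ φ ξ := by nlinarith [hξ.1]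
      rw [h1, le_div_iff₀ (by linarith)] at h2
      linarith
    · rfl
    · obtain ⟨ξ, hξ, h1⟩ := exists_hasDerivAt_eq_slope _ φ hy hcont.continuousOn fun x _ => d x
      have := (h ξ a hξ.2.le).1
      have h2 : φ ξ ≤ 0 := by nlinarith [hξ.2]
      rw [h1, div_le_iff₀ (by linarith)] at h2
      linarith

theorem cyc {c : ℝ} (hc : 0 < c) : ∃ (δ C : ℝ) (h : ℝ → ℝ) (X : ℕ → ℝ) (K : ℕ),
    0 < δ ∧ δ ≤ c ^ 2 / 8 ∧ 0 ≤ C ∧ (∀ u v, |h u - h v| ≤ C * |u - v|) ∧ 0 < K ∧
    (∀ n i, X (i + n * K) = X i) ∧ X 0 ≠ X 1 ∧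
    ∀ t, X (t + 2) + X t = 2 * (1 - δ) * X (t + 1) ∧ h (X (t + 1)) = (X t - X (t + 2)) / 2 := by
  obtain ⟨K, hK⟩ := exists_nat_ge (max 3 (4 * π / c))
  have K3 : (3 : ℝ) ≤ K := (le_max_left _ _).trans hK
  have K3' : 3 ≤ K := by exact_mod_cast K3
  have Kc : 4 * π / c ≤ K := (le_max_right _ _).trans hK
  obtain ⟨θ, hθ⟩ : ∃ θ : ℝ, θ = 2 * π / K := ⟨_, rfl⟩
  have θ0 : 0 < θ := by rw [hθ]; have := pi_pos; positivity
  have θK : θ * K = 2 * π := by rw [hθ]; field_simp
  have θc : θ ≤ c / 2 := by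
    rw [div_le_iff₀ hc] at Kc
    nlinarith
  have θπ : θ ≤ π := by nlinarith [pi_pos]
  let A : ℕ → ℝ := fun t => θ / 4 + t * θ
  have inj : ∀ i j, cos (A i) = cos (A j) → ∃ k : ℤ, A j = 2 * k * π + A i := by
    intro i j hij
    obtain ⟨k, hk | hk⟩ := Real.cos_eq_cos_iff.1 hij
    · exact ⟨k, hk⟩
    · exfalso
      have h1 : (1 + 2 * (i + j) : ℝ) * θ = (2 * k * K) * θ := by
        simp only [A] at hk
        linear_combination 2 * hk - 2 * k * θK
      have h2 : (1 + 2 * (i + j) : ℤ) = 2 * k * K := by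
        exact_mod_cast mul_right_cancel₀ θ0.ne' h1
      have : (2 : ℤ) ∣ 1 + 2 * (i + j) := ⟨k * K, by rw [h2]; ring⟩
      omega
  have per : ∀ n i, cos (A (i + n * K)) = cos (A i) := fun n i => by
    have : A (i + n * K) = A i + n * (2 * π) := by
      simp only [A]; push_cast; linear_combination n * θK
    rw [this, cos_add_nat_mul_two_pi]
  classical
  let y : ℝ → ℝ := fun u => if h : ∃ t, cos (A t) = u then sin θ * sin (A h.choose) else 0
  have hy : ∀ t, y (cos (A t)) = sin θ * sin (A t) := fun t => by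
    have h : ∃ s, cos (A s) = cos (A t) := ⟨t, rfl⟩
    simp only [y, dif_pos h]
    obtain ⟨k, hk⟩ := inj _ _ h.choose_spec
    generalize h.choose = j at hk
    rw [hk, show 2 * k * π + A j = A j + k * (2 * π) by ring, sin_add_int_mul_two_pi]
  have fin : (range fun t => cos (A t)).Finite := by
    refine ((finite_lt_nat K).image fun t => cos (A t)).subset ?_
    rintro _ ⟨t, rfl⟩
    refine ⟨t % K, Nat.mod_lt _ (by omega), ?_⟩
    show cos (A (t % K)) = cos (A t)
    rw [← per (t / K), Nat.mod_add_div']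
  obtain ⟨C, hC⟩ := ((fin.prod fin).image fun p => |y p.1 - y p.2| / |p.1 - p.2|).bddAbove
  have lip : LipschitzOnWith C.toNNReal y (range fun t => cos (A t)) := by
    refine LipschitzOnWith.of_dist_le' fun u hu v hv => ?_
    rw [Real.dist_eq, Real.dist_eq]
    by_cases huv : u = v
    · simp [huv]
    · have := hC ⟨(u, v), ⟨hu, hv⟩, rfl⟩
      rwa [div_le_iff₀ (abs_pos.2 (sub_ne_zero.2 huv))] at this
  obtain ⟨h, h1, h2⟩ := lip.extend_real
  refine ⟨1 - cos θ, C.toNNReal, h, fun t => cos (A t), K, ?_, ?_, NNReal.coe_nonneg _,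
    fun u v => h1.dist_le_mul u v, by omega, per, fun h01 => ?_, fun t => ?_⟩
  · have := cos_lt_cos_of_nonneg_of_le_pi le_rfl θπ θ0
    rw [cos_zero] at this
    linarith
  · nlinarith [one_sub_sq_div_two_le_cos (x := θ)]
  · obtain ⟨k, hk⟩ := inj _ _ h01
    have h1 : (1 : ℝ) * θ = (k * K) * θ := by
      simp only [A] at hk
      push_cast at hk
      linear_combination hk - k * θK
    have h2 : (1 : ℤ) = k * K := by exact_mod_cast mul_right_cancel₀ θ0.ne' h1
    have := Int.le_of_dvd one_pos ⟨k, h2.trans (mul_comm _ _)⟩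
    omega
  · have a1 : A (t + 2) = A (t + 1) + θ := by simp only [A]; push_cast; ring
    have a2 : A t = A (t + 1) - θ := by simp only [A]; push_cast; ring
    simp only
    rw [← h2 ⟨t + 1, rfl⟩, hy, a1, a2, cos_add, cos_sub]
    constructor <;> ring

theorem result (c : ℝ) (hc : 0 < c) : ∃ κ > 0, ∀ μ L γ β : ℝ,
    0 < μ → μ < L → μ / L ≤ κ → 0 < γ →
    ∃ (f : ℝ → ℝ) (a : ℝ) (x : ℕ → ℝ), F1 μ L f ∧ (∀ y, f a ≤ f y) ∧
      (∀ t, x (t + 2) = (1 + β) * x (t + 1) - β * x t - γ * deriv f (x (t + 1))) ∧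
      ((1 - c * √(μ / L) : ℝ) : EReal) < rate x a := by
  obtain ⟨δ, C, h, X, K, δ0, δc, C0, hh, K0, per, X01, hX⟩ := cyc hc
  obtain ⟨s0, s00, s1, s2, s3, s4⟩ : ∃ s0 : ℝ, 0 < s0 ∧ s0 ≤ 1 ∧ s0 ≤ c / 8 ∧ s0 ≤ 1 / (2 * c) ∧
      s0 ≤ δ / (8 * C / c + 4) :=
    ⟨min (min 1 (c / 8)) (min (1 / (2 * c)) (δ / (8 * C / c + 4))), by positivity,
      (min_le_left _ _).trans (min_le_left _ _), (min_le_left _ _).trans (min_le_right _ _),
      (min_le_right _ _).trans (min_le_left _ _), (min_le_right _ _).trans (min_le_right _ _)⟩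
  refine ⟨s0 ^ 2, by positivity, fun μ L γ β hμ hL hκ hγ => ?_⟩
  by_contra H
  push Not at H
  have L0 : 0 < L := hμ.trans hL
  obtain ⟨s, hs⟩ : ∃ s, s = √(μ / L) := ⟨_, rfl⟩
  rw [← hs] at H
  have s0' : 0 < s := by rw [hs]; positivity
  have ss : s ^ 2 * L = μ := by rw [hs, sq_sqrt (by positivity)]; field_simp
  have hs0 : s ≤ s0 := by rw [hs]; exact sqrt_le_iff.2 ⟨s00.le, hκ⟩
  have cs : c * s ≤ 1 / 2 := by
    have := hs0.trans s3
    rw [le_div_iff₀ (by positivity)] at this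
    linarith
  have cs0 : 0 < c * s := by positivity
  have root : ∀ l : ℝ, μ ≤ l → l ≤ L → ∀ z : ℂ, z ^ 2 = (1 + β - γ * l) * z - β →
      ‖z‖ ≤ 1 - c * s := by
    intro l l1 l2 z hz
    obtain ⟨f, a, hf, ha, hd, ha0⟩ := mk (μ := μ) (L := L) (φ := fun x => l * x) hμ
      (by fun_prop) (fun x y hxy => by
        constructor <;> linarith [mul_le_mul_of_nonneg_right l1 (sub_nonneg.2 hxy),
          mul_le_mul_of_nonneg_right l2 (sub_nonneg.2 hxy)])
    obtain rfl : a = 0 := (mul_eq_zero.1 ha0).resolve_left (by linarith)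
    have hp : ∀ t : ℕ, z ^ (t + 2) = ((1 + β - γ * l : ℝ) : ℂ) * z ^ (t + 1) - (β : ℂ) * z ^ t :=
      fun t => by push_cast; linear_combination z ^ t * hz
    by_contra hlt
    push Not at hlt
    obtain ⟨r, r1, r2⟩ := exists_between hlt
    have r0 : 0 < r := by linarith
    have b1 := lim (H f 0 (fun t => (z ^ t).re) hf ha fun t => by
      rw [hd, hp, Complex.sub_re, Complex.re_ofReal_mul, Complex.re_ofReal_mul]; ring) r1
    have b2 := lim (H f 0 (fun t => (z ^ t).im) hf ha fun t => by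
      rw [hd, hp, Complex.sub_im, Complex.im_ofReal_mul, Complex.im_ofReal_mul]; ring) r1
    have b3 := (tendsto_pow_atTop_atTop_of_one_lt ((one_lt_div r0).2 r2)).eventually_gt_atTop 2
    obtain ⟨t, t1, t2, t3⟩ := (b1.and (b2.and b3)).exists
    rw [div_pow, lt_div_iff₀ (by positivity), ← norm_pow] at t3
    rw [sub_zero] at t1 t2
    linarith [Complex.norm_le_abs_re_add_abs_im (z ^ t)]
  have two : ∀ l : ℝ, μ ≤ l → l ≤ L → ∃ p q : ℝ, c * s ≤ p ∧ c * s ≤ q ∧ p ≤ 2 ∧ q ≤ 2 ∧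
      p * q = γ * l ∧ |1 - β| ≤ p + q := by
    intro l l1 l2
    obtain ⟨w, hw⟩ := IsAlgClosed.exists_eq_mul_self ((1 + β - γ * l : ℂ) ^ 2 - 4 * β)
    obtain ⟨z1, hz1⟩ : ∃ z1 : ℂ, z1 = (1 + β - γ * l + w) / 2 := ⟨_, rfl⟩
    obtain ⟨z2, hz2⟩ : ∃ z2 : ℂ, z2 = (1 + β - γ * l - w) / 2 := ⟨_, rfl⟩
    have n1 := root l l1 l2 z1 (by rw [hz1]; linear_combination (-1 / 4) * hw)
    have n2 := root l l1 l2 z2 (by rw [hz2]; linear_combination (-1 / 4) * hw)
    have e1 : (1 - z1) * (1 - z2) = ((γ * l : ℝ) : ℂ) := by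
      rw [hz1, hz2]; push_cast; linear_combination (1 / 4) * hw
    have e2 : ((1 - β : ℝ) : ℂ) = (1 - z1) + z1 * (1 - z2) := by
      rw [hz1, hz2]; push_cast; linear_combination (1 / 4) * hw
    have m1 := norm_sub_norm_le (1 : ℂ) z1
    have m2 := norm_sub_norm_le (1 : ℂ) z2
    have m3 := norm_sub_le (1 : ℂ) z1
    have m4 := norm_sub_le (1 : ℂ) z2
    rw [norm_one] at m1 m2 m3 m4
    refine ⟨‖1 - z1‖, ‖1 - z2‖, by linarith, by linarith, by linarith, by linarith, ?_, ?_⟩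
    · rw [← norm_mul, e1, Complex.norm_real,
        Real.norm_of_nonneg (mul_nonneg hγ.le (hμ.le.trans l1))]
    · rw [← Real.norm_eq_abs, ← Complex.norm_real, e2]
      refine (norm_add_le _ _).trans ?_
      rw [norm_mul]
      linarith [mul_nonneg (norm_nonneg (1 - z2)) (by linarith : 0 ≤ 1 - ‖z1‖)]
  obtain ⟨p', q', p1', q1', p2', q2', pq', -⟩ := two L hL.le le_rfl
  obtain ⟨p, q, p1, q1, -, -, pq, hb⟩ := two μ le_rfl hL.le
  have g1 : γ * L ≤ 4 := by linarith [mul_le_mul p2' q2' (cs0.le.trans q1') zero_le_two]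
  have g2 : γ * μ ≤ 4 * s ^ 2 := by
    rw [← ss]; linarith [mul_le_mul_of_nonneg_right g1 (sq_nonneg s)]
  have g3 : c ^ 2 ≤ γ * L := by
    have := mul_le_mul p1 q1 cs0.le (cs0.le.trans p1)
    rw [pq, ← ss] at this
    exact le_of_mul_le_mul_right (a := s ^ 2) (by linarith) (by positivity)
  have g4 : |1 - β| ≤ 8 * s / c := by
    have a1 : p * c ≤ 4 * s := le_of_mul_le_mul_right (by
      linarith [mul_le_mul_of_nonneg_left q1 (cs0.le.trans p1)]) s0'
    have a2 : q * c ≤ 4 * s := le_of_mul_le_mul_right (by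
      linarith [mul_le_mul_of_nonneg_left p1 (cs0.le.trans q1)]) s0'
    rw [le_div_iff₀ hc]
    linarith [mul_le_mul_of_nonneg_right hb hc.le]
  have g5 : 8 * s / c ≤ 1 := by rw [div_le_one hc]; linarith
  have g6 : |1 - β| * C + 4 * s ^ 2 ≤ δ := by
    have := hs0.trans s4
    rw [le_div_iff₀ (by positivity)] at this
    have a1 := mul_le_mul_of_nonneg_right g4 C0
    have a2 : s * (8 * C / c + 4) = 8 * s / c * C + 4 * s := by ring
    linarith [mul_nonneg s0'.le (by linarith : 0 ≤ 1 - s)]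
  have g7 := abs_le.1 (g4.trans g5)
  have hcont : Continuous h := by
    have : LipschitzWith C.toNNReal h := LipschitzWith.of_dist_le' hh
    exact this.continuous
  obtain ⟨f, a, hf, ha, hd, -⟩ := mk (μ := μ) (L := L)
    (φ := fun u => ((1 + β) * δ * u + (1 - β) * h u) / γ) hμ (by fun_prop) (fun u v huv => by
      have d0 := sub_nonneg.2 huv
      have a1 : |(1 - β) * (h v - h u)| ≤ |1 - β| * C * (v - u) := by
        rw [abs_mul, mul_assoc]
        refine mul_le_mul_of_nonneg_left ?_ (abs_nonneg _)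
        have := hh v u
        rwa [abs_of_nonneg d0] at this
      have a2 := abs_le.1 a1
      have a3 : γ * μ ≤ (1 + β) * δ - |1 - β| * C := by
        linarith [mul_nonneg (by linarith [g7.2] : 0 ≤ β) δ0.le]
      have a4 : (1 + β) * δ + |1 - β| * C ≤ γ * L := by
        linarith [mul_nonneg (by linarith [g7.1] : 0 ≤ 2 - β) δ0.le, sq_nonneg s, sq_nonneg c]
      have a5 := mul_le_mul_of_nonneg_right a3 d0
      have a6 := mul_le_mul_of_nonneg_right a4 d0
      rw [← sub_div, le_div_iff₀ hγ, div_le_iff₀ hγ]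
      constructor <;> linarith [a2.1, a2.2])
  have b := lim (r := 1 - c * s / 2) (H f a X hf ha fun t => by
    rw [hd]
    simp only
    rw [mul_div_cancel₀ _ hγ.ne', (hX t).2]
    linear_combination (1 + β) / 2 * (hX t).1) (by linarith)
  have t0 : Tendsto (fun t => |X t - a|) atTop (𝓝 0) :=
    squeeze_zero' (Eventually.of_forall fun _ => abs_nonneg _) b
      (tendsto_pow_atTop_nhds_zero_of_lt_one (by linarith) (by linarith))
  have t1 : ∀ i, X i = a := fun i => by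
    have u : Tendsto (fun n => i + n * K) atTop atTop :=
      tendsto_atTop_mono (fun n => le_add_left (Nat.le_mul_of_pos_right n K0)) tendsto_id
    have := t0.comp u
    simp only [Function.comp_def, per, tendsto_const_nhds_iff, abs_eq_zero] at this
    linarith
  exact X01 (by rw [t1 0, t1 1])

end Pool.Agent.Results.MP_a6d20f_an.No
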